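import Pool.Agent.Q58.CD.Defs

/-!
A translation invariant design with `l = k - 1` and a short block orbit on `ZMod k × F`.
-/

set_option autoImplicit false

namespace Pool.Agent.Q58.CD

open Finset

section Gen

variable {G : Type} [AddCommGroup G] [Fintype G] [DecidableEq G]

theorem sum_fib {ι : Type} (U : Finset ι) (β : ι → Finset G) (P : Finset G → Prop)
    [DecidablePred P] :
    ∑ B ∈ univ.filter P, (U.filter (fun i => β i = B)).card = (U.filter (fun i => P (β i))).card := by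
  rw [card_eq_sum_card_fiberwise (f := β) (s := U.filter (fun i => P (β i))) (t := univ.filter P)]
  · refine sum_congr rfl fun B hB => ?_
    rw [mem_filter] at hB
    congr 1
    ext i
    simp only [mem_filter]
    constructor
    · rintro ⟨h1, h2⟩
      exact ⟨⟨h1, h2 ▸ hB.2⟩, h2⟩
    · rintro ⟨⟨h1, -⟩, h2⟩
      exact ⟨h1, h2⟩
  · intro i hi
    rw [mem_coe, mem_filter] at hi
    rw [mem_coe, mem_filter]
    exact ⟨mem_univ _, hi.2⟩

end Gen

variable {k : ℕ} [NeZero k] {F : Type} [Field F] [Fintype F] [DecidableEq F]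

/-- the data -/
structure Char (k : ℕ) [NeZero k] (F : Type) [Field F] where
  χ : ZMod k → F
  add : ∀ i j, χ (i + j) = χ i * χ j
  zero : χ 0 = 1
  inj : Function.Injective χ

variable (X : Char k F)

namespace Char

theorem ne (i : ZMod k) : X.χ i ≠ 0 := by
  intro h
  have h1 := X.add i (-i)
  rw [h, zero_mul, add_neg_cancel, X.zero] at h1
  exact one_ne_zero h1

/-- transversal blocks -/
def Ga (c : F × F) : Finset (ZMod k × F) := univ.image fun i => (i, c.1 * X.χ i + c.2)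

theorem mem_Ga {c : F × F} {x : ZMod k × F} : x ∈ X.Ga c ↔ c.1 * X.χ x.1 + c.2 = x.2 := by
  unfold Ga
  rw [mem_image]
  constructor
  · rintro ⟨i, -, rfl⟩
    rfl
  · intro h
    exact ⟨x.1, mem_univ _, by rw [h]⟩

theorem card_Ga (c : F × F) : (X.Ga c).card = k := by
  unfold Ga
  rw [card_image_of_injective, card_univ, ZMod.card]
  intro i j h
  exact congrArg Prod.fst h

theorem tr_Ga (c : F × F) (t : ZMod k × F) :
    tr (X.Ga c) t = X.Ga (c.1 * X.χ (-t.1), c.2 + t.2) := by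
  ext x
  rw [mem_tr, mem_Ga, mem_Ga]
  simp only [Prod.fst_sub, Prod.snd_sub]
  rw [sub_eq_add_neg x.1, X.add, add_comm] 
  constructor
  · intro h
    rw [show c.1 * X.χ (-t.1) * X.χ x.1 + (c.2 + t.2) = c.2 + c.1 * (X.χ x.1 * X.χ (-t.1)) + t.2 by
      ring, h]
    ring
  · intro h
    rw [← h]
    ring

/-- the cosets -/
def Co (a : F) : Finset F := univ.image fun j => a * X.χ j

theorem mem_Co {a x : F} : x ∈ X.Co a ↔ ∃ j, a * X.χ j = x := by
  unfold Co
  rw [mem_image]
  simp only [mem_univ, true_and]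

theorem Co_eq {a x : F} (h : x ∈ X.Co a) : X.Co a = X.Co x := by
  rw [mem_Co] at h
  obtain ⟨j, rfl⟩ := h
  ext y
  rw [mem_Co, mem_Co]
  constructor
  · rintro ⟨i, rfl⟩
    refine ⟨i - j, ?_⟩
    rw [mul_assoc, ← X.add]
    congr 2
    abel
  · rintro ⟨i, rfl⟩
    refine ⟨j + i, ?_⟩
    rw [mul_assoc, ← X.add]

theorem card_Co {a : F} (ha : a ≠ 0) : (X.Co a).card = k := by
  unfold Co
  rw [card_image_of_injective, card_univ, ZMod.card]
  intro i j h
  exact X.inj (mul_left_cancel₀ ha h)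

/-- the set of the cosets -/
def Cs : Finset (Finset F) := (univ.erase (0 : F)).image X.Co

theorem mem_Cs {C : Finset F} : C ∈ X.Cs ↔ ∃ a, a ≠ 0 ∧ X.Co a = C := by
  unfold Cs
  rw [mem_image]
  simp only [mem_erase, mem_univ, and_true]

/-- the blocks inside the groups -/
def La (c : ZMod k × Finset F × F) : Finset (ZMod k × F) := c.2.1.image fun x => (c.1, x + c.2.2)

omit [NeZero k] [Fintype F] in
theorem mem_La {c : ZMod k × Finset F × F} {x : ZMod k × F} :
    x ∈ La c ↔ x.1 = c.1 ∧ x.2 - c.2.2 ∈ c.2.1 := by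
  unfold La
  rw [mem_image]
  constructor
  · rintro ⟨y, hy, rfl⟩
    exact ⟨rfl, by simpa using hy⟩
  · rintro ⟨h1, h2⟩
    refine ⟨_, h2, ?_⟩
    rw [sub_add_cancel, ← h1]

omit [NeZero k] [Fintype F] in
theorem card_La (c : ZMod k × Finset F × F) : (La c).card = c.2.1.card := by
  unfold La
  rw [card_image_of_injective]
  intro x y h
  have := congrArg Prod.snd h
  exact add_right_cancel this

theorem tr_La (c : ZMod k × Finset F × F) (t : ZMod k × F) :
    tr (La c) t = La (c.1 + t.1, c.2.1, c.2.2 + t.2) := by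
  ext x
  rw [mem_tr, mem_La, mem_La]
  simp only [Prod.fst_sub, Prod.snd_sub]
  rw [sub_eq_iff_eq_add, show x.2 - t.2 - c.2.2 = x.2 - (c.2.2 + t.2) by ring]

/-- the index set of the blocks inside the groups -/
def Ix : Finset (ZMod k × Finset F × F) := univ ×ˢ (X.Cs ×ˢ univ)

theorem mem_Ix {c : ZMod k × Finset F × F} : c ∈ X.Ix ↔ c.2.1 ∈ X.Cs := by
  unfold Ix
  rw [mem_product, mem_product]
  simp only [mem_univ, true_and, and_true]

/-- the multiplicity function -/
def mu (B : Finset (ZMod k × F)) : ℕ :=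
  (k - 1) * ((univ : Finset (F × F)).filter (fun c => X.Ga c = B)).card +
    (X.Ix.filter (fun c => La c = B)).card

theorem mu_le (B : Finset (ZMod k × F)) (t : ZMod k × F) : X.mu B ≤ X.mu (tr B t) := by
  unfold mu
  refine Nat.add_le_add (Nat.mul_le_mul_left _ ?_) ?_
  · refine card_le_card_of_injOn (fun c => (c.1 * X.χ (-t.1), c.2 + t.2)) ?_ ?_
    · intro c hc
      simp only [coe_filter, mem_univ, true_and, Set.mem_setOf_eq] at hc ⊢
      rw [← hc, X.tr_Ga]
    · rintro ⟨c, s⟩ - ⟨c', s'⟩ - h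
      simp only [Prod.mk.injEq] at h ⊢
      exact ⟨mul_right_cancel₀ (X.ne _) h.1, add_right_cancel h.2⟩
  · refine card_le_card_of_injOn (fun c => (c.1 + t.1, c.2.1, c.2.2 + t.2)) ?_ ?_
    · intro c hc
      simp only [coe_filter, Set.mem_setOf_eq, mem_Ix] at hc ⊢
      exact ⟨hc.1, by rw [← hc.2, tr_La]⟩
    · rintro ⟨i, C, s⟩ - ⟨i', C', s'⟩ - h
      simp only [Prod.mk.injEq] at h ⊢
      exact ⟨add_right_cancel h.1, h.2.1, add_right_cancel h.2.2⟩

/-- inside a group -/
theorem count_La {i : ZMod k} {x y : F} (hxy : x ≠ y) :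
    (X.Ix.filter (fun c => (i, x) ∈ La c ∧ (i, y) ∈ La c)).card = k - 1 := by
  have h0 : ((univ : Finset (ZMod k)).erase 0).card = k - 1 := by
    rw [card_erase_of_mem (mem_univ _), card_univ, ZMod.card]
  rw [← h0]
  symm
  have hne : ∀ j : ZMod k, j ≠ 0 → 1 - X.χ j ≠ 0 := by
    intro j hj h
    rw [sub_eq_zero, ← X.zero] at h
    exact hj (X.inj h).symm
  -- the centre
  let s : ZMod k → F := fun j => (y - X.χ j * x) / (1 - X.χ j)
  have hs : ∀ j : ZMod k, j ≠ 0 → y - s j = (x - s j) * X.χ j := by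
    intro j hj
    have h1 : s j * (1 - X.χ j) = y - X.χ j * x := div_mul_cancel₀ _ (hne j hj)
    linear_combination -h1
  have hsx : ∀ j : ZMod k, j ≠ 0 → x - s j ≠ 0 := by
    intro j hj h
    have h1 := hs j hj
    rw [h, zero_mul] at h1
    exact hxy (by linear_combination h - h1)
  refine card_bij (fun j _ => (i, X.Co (x - s j), s j)) ?_ ?_ ?_
  · intro j hj
    have hj0 : j ≠ 0 := ne_of_mem_erase hj
    rw [mem_filter, mem_Ix, mem_Cs, mem_La, mem_La]
    refine ⟨⟨_, hsx j hj0, rfl⟩, ⟨rfl, ?_⟩, rfl, ?_⟩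
    · rw [mem_Co]
      exact ⟨0, by rw [X.zero, mul_one]⟩
    · rw [mem_Co]
      exact ⟨j, (hs j hj0).symm⟩
  · intro j hj j' hj' h
    have hj0 : j ≠ 0 := ne_of_mem_erase hj
    have hj0' : j' ≠ 0 := ne_of_mem_erase hj'
    simp only [Prod.mk.injEq] at h
    have h1 := hs j hj0
    have h2 := hs j' hj0'
    rw [← h.2.2, h1] at h2
    exact X.inj (mul_left_cancel₀ (hsx j hj0) h2)
  · rintro ⟨i', C, u⟩ hc
    rw [mem_filter, mem_Ix, mem_Cs, mem_La, mem_La] at hc
    simp only at hc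
    obtain ⟨⟨a, ha, rfl⟩, ⟨rfl, hx⟩, -, hy⟩ := hc
    have hC := X.Co_eq hx
    rw [hC, mem_Co] at hy
    obtain ⟨j, hj⟩ := hy
    have hj0 : j ≠ 0 := by
      rintro rfl
      rw [X.zero, mul_one] at hj
      exact hxy (sub_left_injective hj)
    refine ⟨j, mem_erase.2 ⟨hj0, mem_univ _⟩, ?_⟩
    have hu : s j = u := by
      have h1 : s j * (1 - X.χ j) = y - X.χ j * x := div_mul_cancel₀ _ (hne j hj0)
      refine mul_right_cancel₀ (hne j hj0) ?_
      rw [h1]
      linear_combination -hj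
    rw [hu, hC]

/-- between two groups -/
theorem count_Ga {x y : ZMod k × F} (hxy : x.1 ≠ y.1) :
    ((univ : Finset (F × F)).filter (fun c => x ∈ X.Ga c ∧ y ∈ X.Ga c)).card = 1 := by
  have hne : X.χ x.1 - X.χ y.1 ≠ 0 := fun h => hxy (X.inj (sub_eq_zero.1 h))
  rw [card_eq_one]
  refine ⟨((x.2 - y.2) / (X.χ x.1 - X.χ y.1),
    x.2 - (x.2 - y.2) / (X.χ x.1 - X.χ y.1) * X.χ x.1), ?_⟩
  ext c
  rw [mem_filter, mem_singleton, mem_Ga, mem_Ga]
  constructor
  · rintro ⟨-, h1, h2⟩
    have h3 : c.1 = (x.2 - y.2) / (X.χ x.1 - X.χ y.1) := by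
      rw [eq_div_iff hne, ← h1, ← h2]
      ring
    refine Prod.ext h3 ?_
    simp only
    rw [← h3, ← h1]
    ring
  · rintro rfl
    refine ⟨mem_univ _, by ring, ?_⟩
    simp only
    field_simp
    ring

theorem isDesign : IsDesign k (k - 1) X.mu where
  card := by
    intro B hB
    unfold mu at hB
    by_cases h1 : ((univ : Finset (F × F)).filter (fun c => X.Ga c = B)).card = 0
    · rw [h1, mul_zero, zero_add, card_ne_zero] at hB
      obtain ⟨c, hc⟩ := hB
      rw [mem_filter, mem_Ix, mem_Cs] at hc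
      obtain ⟨⟨a, ha, h2⟩, rfl⟩ := hc
      rw [card_La, ← h2, X.card_Co ha]
    · rw [← Ne, card_ne_zero] at h1
      obtain ⟨c, hc⟩ := h1
      rw [mem_filter] at hc
      rw [← hc.2, X.card_Ga]
  cover := by
    intro x y hxy
    unfold mu
    rw [sum_add_distrib, ← mul_sum, sum_fib univ X.Ga (fun B => x ∈ B ∧ y ∈ B),
      sum_fib X.Ix La (fun B => x ∈ B ∧ y ∈ B)]
    by_cases h1 : x.1 = y.1
    · have h2 : x.2 ≠ y.2 := fun h => hxy (Prod.ext h1 h)
      have h3 : ((univ : Finset (F × F)).filter (fun c => x ∈ X.Ga c ∧ y ∈ X.Ga c)) = ∅ := by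
        rw [filter_eq_empty_iff]
        rintro c - ⟨h4, h5⟩
        rw [mem_Ga] at h4 h5
        rw [h1] at h4
        exact h2 (h4.symm.trans h5)
      rw [h3, card_empty, mul_zero, zero_add]
      have h4 := X.count_La (i := x.1) h2
      rwa [show ((x.1, y.2) : ZMod k × F) = y by rw [h1]] at h4
    · rw [X.count_Ga h1, mul_one]
      have h3 : (X.Ix.filter (fun c => x ∈ La c ∧ y ∈ La c)) = ∅ := by
        rw [filter_eq_empty_iff]
        rintro c - ⟨h4, h5⟩
        rw [mem_La] at h4 h5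
        exact h1 (h4.1.trans h5.1.symm)
      rw [h3, card_empty, add_zero]
  inv := by
    intro B t
    refine le_antisymm ?_ (X.mu_le B t)
    have h := X.mu_le (tr B t) (-t)
    rwa [tr_tr, add_neg_cancel, tr_zero] at h

theorem mu_short (hk : 2 ≤ k) : X.mu (X.Ga 0) ≠ 0 := by
  unfold mu
  have h1 : 0 < ((univ : Finset (F × F)).filter (fun c => X.Ga c = X.Ga 0)).card :=
    card_pos.2 ⟨0, mem_filter.2 ⟨mem_univ _, rfl⟩⟩
  have h2 : 0 < (k - 1) * ((univ : Finset (F × F)).filter (fun c => X.Ga c = X.Ga 0)).card :=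
    Nat.mul_pos (by omega) h1
  omega

theorem tr_short : tr (X.Ga 0) (1, 0) = X.Ga 0 := by
  rw [X.tr_Ga]
  congr 1
  simp only [Prod.fst_zero, Prod.snd_zero, zero_mul, add_zero]
  rfl

end Char

end Pool.Agent.Q58.CD
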