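import Pool.Agent.Q58.CD.Defs

/-!
A design with `l = k - 1`, `k ≥ 3`, and a short block orbit has no system of disjoint
representatives.
-/

set_option autoImplicit false

namespace Pool.Agent.Q58.CD

open Finset

variable {G : Type} [AddCommGroup G] [Fintype G] [DecidableEq G]

/-- the number of blocks through a point -/
theorem IsDesign.repl {k : ℕ} (hk : 2 ≤ k) {m : Finset G → ℕ} (h : IsDesign k (k - 1) m) (x : G) :
    ∑ B ∈ univ.filter (fun B : Finset G => x ∈ B), m B + 1 = Fintype.card G := by
  have h1 : ∑ y ∈ univ.erase x, ∑ B ∈ univ.filter (fun B : Finset G => x ∈ B ∧ y ∈ B), m B =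
      (Fintype.card G - 1) * (k - 1) := by
    rw [sum_congr rfl fun y hy => h.cover x y (ne_of_mem_erase hy).symm, sum_const, smul_eq_mul,
      card_erase_of_mem (mem_univ x), card_univ]
  have h2 : ∑ y ∈ univ.erase x, ∑ B ∈ univ.filter (fun B : Finset G => x ∈ B ∧ y ∈ B), m B =
      ∑ B ∈ univ.filter (fun B : Finset G => x ∈ B), m B * (k - 1) := by
    have h3 : ∀ y ∈ univ.erase x, ∑ B ∈ univ.filter (fun B : Finset G => x ∈ B ∧ y ∈ B), m B =
        ∑ B ∈ univ.filter (fun B : Finset G => x ∈ B), if y ∈ B then m B else 0 := by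
      intro y _
      rw [← sum_filter, filter_filter]
    rw [sum_congr rfl h3, sum_comm]
    refine sum_congr rfl fun B hB => ?_
    rw [mem_filter] at hB
    rw [← sum_filter, sum_const, smul_eq_mul, mul_comm]
    rcases Nat.eq_zero_or_pos (m B) with h0 | h0
    · rw [h0, zero_mul, zero_mul]
    · congr 1
      have h4 : (univ.erase x).filter (fun y => y ∈ B) = B.erase x := by
        ext y
        rw [mem_filter, mem_erase, mem_erase]
        simp only [mem_univ, and_true]
      rw [h4, card_erase_of_mem hB.2, h.card B h0.ne']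
  rw [h1, ← sum_mul] at h2
  have h3 : Fintype.card G - 1 = ∑ B ∈ univ.filter (fun B : Finset G => x ∈ B), m B :=
    Nat.eq_of_mul_eq_mul_right (by omega) h2
  have h4 : 0 < Fintype.card G := Fintype.card_pos_iff.2 ⟨x⟩
  omega

/-- no system of disjoint representatives -/
theorem no_reps {k : ℕ} (hk : 3 ≤ k) {m : Finset G → ℕ} (h : IsDesign k (k - 1) m)
    {S : Finset G} (hS : m S ≠ 0) {t : G} (ht : t ≠ 0) (hSt : tr S t = S) : ¬ HasReps m := by
  rintro ⟨r, hr1, hr2⟩
  classical
  -- the index set
  let J : Finset (Σ _ : Finset G, ℕ) :=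
    (univ.filter (fun B : Finset G => (0 : G) ∈ B)).sigma fun B => range (m B)
  have hJ : J.card + 1 = Fintype.card G := by
    rw [← h.repl (by omega) 0]
    simp only [J, card_sigma, card_range]
  -- the point of the chosen block
  have hF : ∀ i : Σ _ : Finset G, ℕ, i ∈ J → ∃ x, x ∈ r (orb i.1) i.2 ∧
      tr (r (orb i.1) i.2) (-x) = i.1 := by
    rintro ⟨B, j⟩ hi
    simp only [J, mem_sigma, mem_filter, mem_univ, true_and, mem_range] at hi
    obtain ⟨s, hs⟩ := hr1 B j hi.2
    refine ⟨s, ?_, ?_⟩
    · rw [hs, mem_tr, sub_self]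
      exact hi.1
    · simp only
      rw [hs, tr_tr, add_neg_cancel, tr_zero]
  choose! F hF1 hF2 using hF
  have key : ∀ i ∈ J, ∀ B j, j < m B → F i ∈ r (orb B) j → orb i.1 = orb B ∧ i.2 = j := by
    rintro ⟨B, j⟩ hi B' j' hj' hx
    have hi' := hi
    simp only [J, mem_sigma, mem_filter, mem_univ, true_and, mem_range] at hi'
    by_contra hcon
    have h1 : orb B ≠ orb B' ∨ j ≠ j' := by
      by_cases h2 : orb B = orb B'
      · right
        intro h3
        exact hcon ⟨h2, h3⟩
      · exact Or.inl h2
    exact disjoint_left.1 (hr2 B B' j j' hi'.2 hj' h1) (hF1 _ hi) hx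
  have hinj : Set.InjOn F J := by
    intro i hi i' hi' hii
    have hi2 := hi'
    simp only [J, coe_sigma, Set.mem_sigma_iff, mem_coe, mem_filter, mem_univ, true_and,
      mem_range] at hi2
    obtain ⟨h1, h2⟩ := key i hi i'.1 i'.2 hi2.2 (by rw [hii]; exact hF1 i' hi')
    have h3 := hF2 i hi
    rw [h1, h2, hii, hF2 i' hi'] at h3
    rcases i with ⟨B, j⟩
    rcases i' with ⟨B', j'⟩
    simp only at h2 h3
    rw [h2, h3]
  -- exactly one point is missing
  have hcard : (univ \ J.image F).card = 1 := by
    rw [card_sdiff_of_subset (subset_univ _), card_univ, card_image_of_injOn hinj]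
    omega
  obtain ⟨y, hy⟩ := card_eq_one.1 hcard
  have hmiss : ∀ x, x ∉ J.image F → x = y := by
    intro x hx
    have h1 : x ∈ univ \ J.image F := mem_sdiff.2 ⟨mem_univ _, hx⟩
    rw [hy, mem_singleton] at h1
    exact h1
  have hS0 : 0 < m S := Nat.pos_of_ne_zero hS
  obtain ⟨s, hs⟩ := hr1 S 0 hS0
  set R := r (orb S) 0 with hR
  have hRt : tr R t = R := by
    rw [hs, tr_tr, add_comm, ← tr_tr, hSt]
  have hRcard : R.card = k := by
    rw [hs, card_tr, h.card S hS]
  have hRB : ∀ i ∈ J, F i ∈ R → i = ⟨tr R (-F i), 0⟩ := by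
    intro i hi hx
    obtain ⟨h1, h2⟩ := key i hi S 0 hS0 hx
    have h3 := hF2 i hi
    rw [h1, h2, ← hR] at h3
    rcases i with ⟨B, j⟩
    simp only at h2 h3
    rw [h3, h2]
  have hsub : R ⊆ {y, y - t} := by
    intro x hx
    have hxt : x + t ∈ R := by
      rw [← hRt, mem_tr, add_sub_cancel_right]
      exact hx
    by_cases h1 : x ∈ J.image F
    · by_cases h2 : x + t ∈ J.image F
      · exfalso
        obtain ⟨i, hi, hix⟩ := mem_image.1 h1
        obtain ⟨i', hi', hix'⟩ := mem_image.1 h2
        have h3 := hRB i hi (by rw [hix]; exact hx)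
        have h4 := hRB i' hi' (by rw [hix']; exact hxt)
        have h5 : tr R (-F i) = tr R (-F i') := by
          rw [hix, hix', neg_add, add_comm, ← tr_tr]
          congr 1
          rw [← hRt, tr_tr, add_neg_cancel, tr_zero, hRt]
        have h6 : i = i' := by
          rw [h3, h4, h5]
        rw [← h6, hix] at hix'
        exact ht (by simpa using hix')
      · have h3 := hmiss _ h2
        rw [mem_insert, mem_singleton]
        right
        rw [← h3]
        abel
    · rw [mem_insert]
      exact Or.inl (hmiss _ h1)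
  have h1 := card_le_card hsub
  have h2 := card_le_two (a := y) (b := y - t)
  omega

end Pool.Agent.Q58.CD
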