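import Mathlib

/-!
Cyclic designs and systems of disjoint representatives of their block orbits.
-/

set_option autoImplicit false

namespace Pool.Agent.Q58.CD

open Finset

variable {G : Type} [AddCommGroup G] [Fintype G] [DecidableEq G]

/-- the translate `B + t` -/
def tr (B : Finset G) (t : G) : Finset G := B.image (fun x => x + t)

/-- the translation orbit of `B` -/
def orb (B : Finset G) : Set (Finset G) := {C | ∃ t, C = tr B t}

/-- `m` is the multiplicity function of a translation invariant `(|G|, k, l)`-design -/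
structure IsDesign (k l : ℕ) (m : Finset G → ℕ) : Prop where
  card : ∀ B, m B ≠ 0 → B.card = k
  cover : ∀ x y : G, x ≠ y → ∑ B ∈ univ.filter (fun B : Finset G => x ∈ B ∧ y ∈ B), m B = l
  inv : ∀ B t, m (tr B t) = m B

/-- a system of disjoint representatives: a choice of a block `r O j` from each block orbit, that is,
from each translation orbit `O` and each copy `j < m B` (`B ∈ O`) of it, such that the chosen blocks
are pairwise disjoint -/
def HasReps (m : Finset G → ℕ) : Prop :=
  ∃ r : Set (Finset G) → ℕ → Finset G,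
    (∀ B j, j < m B → r (orb B) j ∈ orb B) ∧
    ∀ B B' j j', j < m B → j' < m B' → (orb B ≠ orb B' ∨ j ≠ j') →
      Disjoint (r (orb B) j) (r (orb B') j')

theorem mem_tr {B : Finset G} {t x : G} : x ∈ tr B t ↔ x - t ∈ B := by
  unfold tr
  rw [mem_image]
  constructor
  · rintro ⟨y, hy, rfl⟩
    simpa using hy
  · intro h
    exact ⟨x - t, h, by abel⟩

theorem tr_tr (B : Finset G) (s t : G) : tr (tr B s) t = tr B (s + t) := by
  ext x
  rw [mem_tr, mem_tr, mem_tr]
  rw [show x - t - s = x - (s + t) by abel]

theorem tr_zero (B : Finset G) : tr B 0 = B := by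
  ext x
  rw [mem_tr, sub_zero]

theorem card_tr (B : Finset G) (t : G) : (tr B t).card = B.card :=
  card_image_of_injective _ (add_left_injective t)

theorem mem_orb_self (B : Finset G) : B ∈ orb B := ⟨0, (tr_zero B).symm⟩

theorem orb_eq_of_mem {B C : Finset G} (h : C ∈ orb B) : orb C = orb B := by
  obtain ⟨t, rfl⟩ := h
  ext D
  constructor
  · rintro ⟨s, rfl⟩
    exact ⟨t + s, tr_tr B t s⟩
  · rintro ⟨s, rfl⟩
    refine ⟨-t + s, ?_⟩
    rw [tr_tr]
    congr 1
    abel

end Pool.Agent.Q58.CD
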