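import Pool.Agent.Q58.CD.Defs

/-!
The design of all pairs in `ZMod (8 n + 4)` has no system of disjoint representatives.
-/

set_option autoImplicit false

namespace Pool.Agent.Q58.CD

open Finset

/-- all pairs -/
def pairs (v : ℕ) [NeZero v] (B : Finset (ZMod v)) : ℕ := if B.card = 2 then 1 else 0

theorem pairs_design (v : ℕ) [NeZero v] : IsDesign 2 1 (pairs v) where
  card := by
    intro B hB
    unfold pairs at hB
    by_contra h
    rw [if_neg h] at hB
    exact hB rfl
  cover := by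
    intro x y hxy
    rw [sum_eq_single_of_mem ({x, y} : Finset (ZMod v))]
    · unfold pairs
      rw [if_pos (card_pair hxy)]
    · rw [mem_filter]
      exact ⟨mem_univ _, by simp, by simp⟩
    · intro B hB hne
      rw [mem_filter] at hB
      unfold pairs
      rw [if_neg]
      intro h
      apply hne
      symm
      apply eq_of_subset_of_card_le
      · intro z hz
        rw [mem_insert, mem_singleton] at hz
        rcases hz with rfl | rfl
        · exact hB.2.1
        · exact hB.2.2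
      · rw [h, card_pair hxy]
  inv := by
    intro B t
    unfold pairs
    rw [card_tr]

theorem natcast_val {v : ℕ} [NeZero v] {d : ℕ} (h : d < v) : ((d : ZMod v)).val = d :=
  ZMod.val_cast_of_lt h

theorem tr_pair {v : ℕ} [NeZero v] (d t : ZMod v) : tr {0, d} t = {t, d + t} := by
  unfold tr
  rw [image_insert, image_singleton, zero_add]

theorem orb_pair {v : ℕ} [NeZero v] {d d' : ℕ} (hd : 1 ≤ d) (hd' : 1 ≤ d') (h : 2 * d ≤ v)
    (h' : 2 * d' ≤ v)
    (he : orb ({0, (d : ZMod v)} : Finset (ZMod v)) = orb {0, (d' : ZMod v)}) : d = d' := by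
  have h1 : ({0, (d' : ZMod v)} : Finset (ZMod v)) ∈ orb ({0, (d : ZMod v)} : Finset (ZMod v)) := by
    rw [he]
    exact mem_orb_self _
  obtain ⟨t, ht⟩ := h1
  rw [tr_pair] at ht
  have h2 : t ∈ ({0, (d' : ZMod v)} : Finset (ZMod v)) := by
    rw [ht]
    simp
  have h3 : (d : ZMod v) + t ∈ ({0, (d' : ZMod v)} : Finset (ZMod v)) := by
    rw [ht]
    simp
  rw [mem_insert, mem_singleton] at h2 h3
  have hv1 : d < v := by omega
  have hv2 : d' < v := by omega
  have hd0 : (d : ZMod v) ≠ 0 := by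
    intro h0
    have := natcast_val hv1
    rw [h0, ZMod.val_zero] at this
    omega
  rcases h2 with rfl | rfl
  · rw [add_zero] at h3
    rcases h3 with h3 | h3
    · exact absurd h3 hd0
    · have h4 := congrArg ZMod.val h3
      rwa [natcast_val hv1, natcast_val hv2] at h4
  · rcases h3 with h3 | h3
    · have h4 : ((d + d' : ℕ) : ZMod v) = 0 := by
        push_cast
        exact h3
      rw [ZMod.natCast_eq_zero_iff] at h4
      have h5 := Nat.le_of_dvd (by omega) h4
      omega
    · exact absurd (by simpa using h3) hd0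

theorem two_no_reps {v : ℕ} [NeZero v] (n : ℕ) (hv : v = 8 * n + 4) : ¬ HasReps (pairs v) := by
  rintro ⟨r, hr1, hr2⟩
  have h2v : 2 ∣ v := ⟨4 * n + 2, by omega⟩
  let φ : ZMod v →+* ZMod 2 := ZMod.castHom h2v (ZMod 2)
  let D : Finset ℕ := Icc 1 (4 * n + 2)
  let R : ℕ → Finset (ZMod v) := fun d => r (orb ({0, (d : ZMod v)} : Finset (ZMod v))) 0
  have hD : ∀ d ∈ D, 1 ≤ d ∧ 2 * d ≤ v ∧ (d : ZMod v) ≠ 0 := by
    intro d hd
    have hd' : 1 ≤ d ∧ d ≤ 4 * n + 2 := mem_Icc.1 hd
    refine ⟨hd'.1, by omega, ?_⟩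
    intro h0
    have := natcast_val (v := v) (d := d) (by omega)
    rw [h0, ZMod.val_zero] at this
    omega
  have hm : ∀ d ∈ D, 0 < pairs v ({0, (d : ZMod v)} : Finset (ZMod v)) := by
    intro d hd
    unfold pairs
    rw [if_pos (card_pair (hD d hd).2.2.symm)]
    exact Nat.one_pos
  have hR : ∀ d ∈ D, ∃ t, R d = {t, (d : ZMod v) + t} := by
    intro d hd
    obtain ⟨t, ht⟩ := hr1 _ 0 (hm d hd)
    exact ⟨t, by rw [← tr_pair]; exact ht⟩
  have hRc : ∀ d ∈ D, (R d).card = 2 := by
    intro d hd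
    obtain ⟨t, ht⟩ := hr1 _ 0 (hm d hd)
    change (r (orb ({0, (d : ZMod v)} : Finset (ZMod v))) 0).card = 2
    rw [ht, card_tr, card_pair (hD d hd).2.2.symm]
  have hdis : (D : Set ℕ).PairwiseDisjoint R := by
    intro d hd d' hd' hne
    refine hr2 _ _ 0 0 (hm d hd) (hm d' hd') (Or.inl fun he => hne ?_)
    exact orb_pair (hD d hd).1 (hD d' hd').1 (hD d hd).2.1 (hD d' hd').2.1 he
  have hun : D.biUnion R = univ := by
    apply eq_univ_of_card
    rw [card_biUnion hdis, sum_congr rfl hRc, sum_const, smul_eq_mul, ZMod.card]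
    simp only [D, Nat.card_Icc]
    omega
  have hsum1 : ∑ x : ZMod v, φ x = ∑ d ∈ D, (d : ZMod 2) := by
    rw [← hun, sum_biUnion hdis]
    refine sum_congr rfl fun d hd => ?_
    obtain ⟨t, ht⟩ := hR d hd
    have hne : t ≠ (d : ZMod v) + t := by
      intro h
      exact (hD d hd).2.2 (by simpa using h)
    rw [ht, sum_pair hne, map_add, map_natCast]
    have h2 : φ t + φ t = 0 := CharTwo.add_self_eq_zero _
    rw [add_comm (d : ZMod 2), ← add_assoc, h2, zero_add]
  have hsum2 : ∑ x : ZMod v, φ x = ∑ i ∈ range v, (i : ZMod 2) := by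
    symm
    refine sum_bij' (fun i _ => (i : ZMod v)) (fun x _ => x.val) ?_ ?_ ?_ ?_ ?_
    · intro i _
      exact mem_univ _
    · intro x _
      exact mem_range.2 (ZMod.val_lt x)
    · intro i hi
      exact natcast_val (mem_range.1 hi)
    · intro x _
      exact ZMod.natCast_zmod_val x
    · intro i _
      rw [map_natCast]
  rw [hsum2] at hsum1
  have h3 : (∑ i ∈ range v, (i : ZMod 2)) = ((∑ i ∈ range v, i : ℕ) : ZMod 2) := by
    rw [Nat.cast_sum]
  have h4 : (∑ d ∈ D, (d : ZMod 2)) = ((∑ d ∈ range (4 * n + 3), d : ℕ) : ZMod 2) := by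
    rw [Nat.cast_sum, range_eq_Ico, sum_eq_sum_Ico_succ_bot (by omega)]
    simp only [D, Nat.cast_zero, zero_add]
    refine sum_congr ?_ fun _ _ => rfl
    ext d
    rw [mem_Icc, mem_Ico]
    omega
  rw [h3, h4] at hsum1
  have h5 := Finset.sum_range_id_mul_two v
  have h6 := Finset.sum_range_id_mul_two (4 * n + 3)
  have h7 : ∑ i ∈ range v, i = (4 * n + 2) * (8 * n + 3) := by
    have h8 : v - 1 = 8 * n + 3 := by omega
    rw [h8] at h5
    have : (∑ i ∈ range v, i) * 2 = ((4 * n + 2) * (8 * n + 3)) * 2 := by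
      rw [h5, hv]
      ring
    exact Nat.eq_of_mul_eq_mul_right (by norm_num) this
  have h8 : ∑ i ∈ range (4 * n + 3), i = (4 * n + 3) * (2 * n + 1) := by
    have h9 : 4 * n + 3 - 1 = 4 * n + 2 := by omega
    rw [h9] at h6
    have : (∑ i ∈ range (4 * n + 3), i) * 2 = ((4 * n + 3) * (2 * n + 1)) * 2 := by
      rw [h6]
      ring
    exact Nat.eq_of_mul_eq_mul_right (by norm_num) this
  rw [h7, h8] at hsum1
  have h2 : (2 : ZMod 2) = 0 := by decide
  have h9 : (((4 * n + 2) * (8 * n + 3) : ℕ) : ZMod 2) = 0 := by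
    have : (((4 * n + 2) * (8 * n + 3) : ℕ) : ZMod 2) = 2 * ((2 * n + 1) * (8 * n + 3)) := by
      push_cast
      ring
    rw [this, h2, zero_mul]
  have h10 : (((4 * n + 3) * (2 * n + 1) : ℕ) : ZMod 2) = 1 := by
    have : (((4 * n + 3) * (2 * n + 1) : ℕ) : ZMod 2) = 2 * (4 * n * n + 5 * n + 1) + 1 := by
      push_cast
      ring
    rw [this, h2, zero_mul, zero_add]
  rw [h9, h10] at hsum1
  exact zero_ne_one hsum1

end Pool.Agent.Q58.CD
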