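import Pool.Agent.Q58.CD.Count
import Pool.Agent.Q58.CD.Cons
import Pool.Agent.Q58.CD.Two

/-!
For every `k ≥ 2` there are arbitrarily large cyclic `(v, k, k - 1)`-designs without disjoint
representatives.
-/

set_option autoImplicit false

namespace Pool.Agent.Q58.CD

open Finset

variable {G G' : Type} [AddCommGroup G] [Fintype G] [DecidableEq G] [AddCommGroup G'] [Fintype G']
  [DecidableEq G']

theorem tr_map (e : G' ≃+ G) (B : Finset G') (t : G') :
    (tr B t).map e.toEquiv.toEmbedding = tr (B.map e.toEquiv.toEmbedding) (e t) := by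
  ext x
  rw [mem_tr, mem_map_equiv, mem_map_equiv, mem_tr]
  have h : e.toEquiv.symm (x - e t) = e.toEquiv.symm x - t := by
    change e.symm (x - e t) = e.symm x - t
    rw [map_sub, AddEquiv.symm_apply_apply]
  rw [h]

theorem IsDesign.transport {k l : ℕ} {m : Finset G → ℕ} (h : IsDesign k l m) (e : G' ≃+ G) :
    IsDesign k l (fun B : Finset G' => m (B.map e.toEquiv.toEmbedding)) where
  card := by
    intro B hB
    rw [← h.card _ hB, card_map]
  cover := by
    intro x y hxy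
    rw [← h.cover (e x) (e y) (fun h => hxy (e.injective h))]
    refine sum_equiv (Equiv.finsetCongr e.toEquiv) ?_ ?_
    · intro B
      rw [mem_filter, mem_filter, Equiv.finsetCongr_apply, mem_map_equiv, mem_map_equiv]
      have h1 : e.toEquiv.symm (e x) = x := e.symm_apply_apply x
      have h2 : e.toEquiv.symm (e y) = y := e.symm_apply_apply y
      rw [h1, h2]
      simp only [mem_univ, true_and]
    · intro B _
      rw [Equiv.finsetCongr_apply]
  inv := by
    intro B t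
    rw [tr_map, h.inv]

/-- characters -/
theorem exists_char {k p : ℕ} [NeZero k] [Fact p.Prime] (h : k ∣ p - 1) :
    Nonempty (Char k (ZMod p)) := by
  have hp : p.Prime := Fact.out
  obtain ⟨g, hg⟩ := IsCyclic.exists_generator (α := (ZMod p)ˣ)
  have hg1 : orderOf g = p - 1 := by
    rw [orderOf_eq_card_of_forall_mem_zpowers hg, Nat.card_eq_fintype_card, ZMod.card_units]
  have hp1 : p - 1 ≠ 0 := by
    have := hp.two_le
    omega
  obtain ⟨c, hc⟩ := h
  have hc0 : c ≠ 0 := by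
    rintro rfl
    rw [mul_zero] at hc
    exact hp1 hc
  have hk0 : k ≠ 0 := NeZero.ne k
  have hw : orderOf (g ^ c) = k := by
    rw [orderOf_pow_of_dvd hc0 (by rw [hg1, hc]; exact dvd_mul_left _ _), hg1, hc,
      Nat.mul_div_cancel _ (Nat.pos_of_ne_zero hc0)]
  refine ⟨⟨fun i => (((g ^ c) ^ i.val : (ZMod p)ˣ) : ZMod p), ?_, ?_, ?_⟩⟩
  · intro i j
    rw [← Units.val_mul, ← pow_add, ZMod.val_add, ← pow_mod_orderOf (g ^ c) (i.val + j.val), hw]
  · rw [ZMod.val_zero, pow_zero, Units.val_one]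
  · intro i j hij
    have h1 : (g ^ c) ^ i.val = (g ^ c) ^ j.val := Units.ext hij
    have h2 := pow_injOn_Iio_orderOf (x := g ^ c) (by rw [Set.mem_Iio, hw]; exact ZMod.val_lt i)
      (by rw [Set.mem_Iio, hw]; exact ZMod.val_lt j) h1
    exact ZMod.val_injective _ h2

theorem main_three {k : ℕ} (hk : 3 ≤ k) (v₀ : ℕ) : ∃ v, v₀ ≤ v ∧ ∃ _ : NeZero v,
    ∃ m : Finset (ZMod v) → ℕ, IsDesign k (k - 1) m ∧
      (∃ S t, m S ≠ 0 ∧ t ≠ 0 ∧ tr S t = S) ∧ ¬ HasReps m := by
  have hk0 : k ≠ 0 := by omega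
  obtain ⟨p, hp, hpv, hpk⟩ := Nat.exists_prime_gt_modEq_one (k := k) v₀ hk0
  have : NeZero k := ⟨hk0⟩
  have : Fact p.Prime := ⟨hp⟩
  have hdvd : k ∣ p - 1 := (Nat.modEq_iff_dvd' hp.one_le).1 hpk.symm
  obtain ⟨X⟩ := exists_char (k := k) (p := p) hdvd
  have hcop : Nat.Coprime k p := by
    rw [Nat.coprime_comm, Nat.Prime.coprime_iff_not_dvd hp]
    intro h1
    have h2 := Nat.le_of_dvd (by omega) h1
    have h3 := Nat.le_of_dvd (by have := hp.two_le; omega) hdvd
    have := hp.two_le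
    omega
  have hv : k * p ≠ 0 := mul_ne_zero hk0 hp.ne_zero
  have : NeZero (k * p) := ⟨hv⟩
  let e : ZMod (k * p) ≃+ ZMod k × ZMod p := (ZMod.chineseRemainder hcop).toAddEquiv
  have hD := X.isDesign.transport e
  let S : Finset (ZMod (k * p)) := (X.Ga 0).map e.symm.toEquiv.toEmbedding
  let t : ZMod (k * p) := e.symm (1, 0)
  have hSe : S.map e.toEquiv.toEmbedding = X.Ga 0 := by
    ext x
    rw [mem_map_equiv, mem_map_equiv]
    have : e.symm.toEquiv.symm (e.toEquiv.symm x) = x := e.apply_symm_apply x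
    rw [this]
  have hS : X.mu (S.map e.toEquiv.toEmbedding) ≠ 0 := by
    rw [hSe]
    exact X.mu_short (by omega)
  have ht : t ≠ 0 := by
    intro h0
    have h1 : ((1, 0) : ZMod k × ZMod p) = 0 := by
      have := congrArg e h0
      rwa [AddEquiv.apply_symm_apply, map_zero] at this
    have h2 : (1 : ZMod k) = 0 := congrArg Prod.fst h1
    have : Fact (1 < k) := ⟨by omega⟩
    exact one_ne_zero h2
  have hSt : tr S t = S := by
    apply map_injective e.toEquiv.toEmbedding
    rw [tr_map, hSe]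
    have : e t = (1, 0) := e.apply_symm_apply _
    rw [this]
    exact X.tr_short
  refine ⟨k * p, ?_, ⟨hv⟩, _, hD, ⟨S, t, hS, ht, hSt⟩, no_reps hk hD hS ht hSt⟩
  calc v₀ ≤ p := hpv.le
    _ ≤ k * p := Nat.le_mul_of_pos_left p (by omega)

theorem main_two (v₀ : ℕ) : ∃ v, v₀ ≤ v ∧ ∃ _ : NeZero v,
    ∃ m : Finset (ZMod v) → ℕ, IsDesign 2 1 m ∧ ¬ HasReps m :=
  ⟨8 * v₀ + 4, by omega, ⟨by omega⟩, pairs _, pairs_design _, two_no_reps v₀ rfl⟩

end Pool.Agent.Q58.CD
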